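import Pool.Agent.Helper56.RZ.GoalsD
import Pool.Agent.Helper50.RZ.E1
import Pool.Agent.Helper64.RZ.A1
import Pool.Agent.Helper55.RZ.J1
import Pool.Agent.Helper55.RZ.J2
import Pool.Agent.Helper56.RZ.J3

/-!
# Project RZ, packet RD (distortion along Bowen balls)
-/

set_option autoImplicit false

open Set Filter Topology MeasureTheory

namespace Pool.Agent.Helper27.RZ

open Pool.Agent.Helper56.RZ

section basic
variable {K : ℕ} {M : Set (E K)} {D : Coc M K} {S U : M → End K}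

theorem sub_of (h : Pair D S U) : Sub D U where
  cont := h.contG
  PP := h.GG
  PT := by
    intro x
    rw [← h.sum, mul_add, h.GF, h.GG, zero_add]
  TP := by
    intro x
    rw [← h.sum, add_mul, h.FG, h.GG, zero_add]
  inv := h.AG

theorem cone1 (h : Hyp8 D S U) (x : M) (w : E K) (hw : ‖S x w‖ ≤ ‖U x w‖) :
    ‖S (D.f x) (D.A x w)‖ ≤ ‖U (D.f x) (D.A x w)‖ := by
  have hS := sub_of h.pair
  have e1 : S (D.f x) (D.A x w) = (D.A x * S x) (S x w) := by
    have a := congrArg (fun L : End K => L w) (h.pair.AF x)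
    have b := congrArg (fun L : End K => L w) (h.pair.FF x)
    have a' : D.A x (S x w) = S (D.f x) (D.A x w) := a
    have b' : S x (S x w) = S x w := b
    change _ = D.A x (S x (S x w))
    rw [b', a']
  have e2 : U x w = (D.B (D.f x) * U (D.f x)) (U (D.f x) (D.A x w)) := by
    have a : D.A x (U x w) = U (D.f x) (D.A x w) :=
      congrArg (fun L : End K => L w) (h.pair.AG x)
    have b : U (D.f x) (U (D.f x) (D.A x w)) = U (D.f x) (D.A x w) :=
      congrArg (fun L : End K => L (D.A x w)) (h.pair.GG (D.f x))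
    have c : D.B (D.f x) (D.A x (U x w)) = D.T x (U x w) :=
      congrArg (fun L : End K => L (U x w)) (D.BA x)
    have d : D.T x (U x w) = U x w := congrArg (fun L : End K => L w) (hS.TP x)
    change _ = D.B (D.f x) (U (D.f x) (U (D.f x) (D.A x w)))
    rw [b, ← a, c, d]
  have n1 : ‖S (D.f x) (D.A x w)‖ ≤ ‖D.A x * S x‖ * ‖S x w‖ := by
    rw [e1]; exact ContinuousLinearMap.le_opNorm _ _
  have n2 : ‖U x w‖ ≤ ‖D.B (D.f x) * U (D.f x)‖ * ‖U (D.f x) (D.A x w)‖ := by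
    conv_lhs => rw [e2]
    exact ContinuousLinearMap.le_opNorm _ _
  have n3 := h.e2 x
  have p1 : 0 ≤ ‖D.A x * S x‖ := norm_nonneg _
  have p2 : 0 ≤ ‖U (D.f x) (D.A x w)‖ := norm_nonneg _
  calc ‖S (D.f x) (D.A x w)‖ ≤ ‖D.A x * S x‖ * ‖S x w‖ := n1
    _ ≤ ‖D.A x * S x‖ * ‖U x w‖ := mul_le_mul_of_nonneg_left hw p1
    _ ≤ ‖D.A x * S x‖ * (‖D.B (D.f x) * U (D.f x)‖ * ‖U (D.f x) (D.A x w)‖) :=
        mul_le_mul_of_nonneg_left n2 p1
    _ = (‖D.B (D.f x) * U (D.f x)‖ * ‖D.A x * S x‖) * ‖U (D.f x) (D.A x w)‖ := by ring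
    _ ≤ (1 / 8) * ‖U (D.f x) (D.A x w)‖ := mul_le_mul_of_nonneg_right n3 p2
    _ ≤ ‖U (D.f x) (D.A x w)‖ := by linarith

theorem cone (h : Hyp8 D S U) (n : ℕ) (x : M) (w : E K) (hT : D.T x w = w)
    (hw : ‖S x w‖ ≤ ‖U x w‖) :
    ‖S (D.f^[n] x) (D.An n x w)‖ ≤ ‖U (D.f^[n] x) (D.An n x w)‖ := by
  induction n with
  | zero =>
    change ‖S x (D.T x w)‖ ≤ ‖U x (D.T x w)‖
    rw [hT]
    exact hw
  | succ n ih =>
    have e : D.An (n + 1) x w = D.A (D.f^[n] x) (D.An n x w) := rfl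
    rw [e, Function.iterate_succ_apply']
    exact cone1 h _ _ ih

/-- comparison of two projections at close points -/
theorem comp2 (h : Pair D S U) (z s : M) (w : E K) (hT : D.T z w = w)
    (hw : ‖S z w‖ ≤ ‖U z w‖) (hc : ‖U z - U s‖ ≤ 1 / 4) :
    ‖w‖ ≤ 2 * ‖U z w‖ ∧ ‖U s w‖ ≤ 2 * ‖U z w‖ ∧ ‖U z w‖ ≤ 2 * ‖U s w‖ := by
  have e : S z w + U z w = w := by
    have := congrArg (fun L : End K => L w) (h.sum z)
    exact this.trans hT
  have n1 : ‖w‖ ≤ 2 * ‖U z w‖ := by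
    have := norm_add_le (S z w) (U z w)
    rw [e] at this
    linarith
  have n2 : ‖(U z - U s) w‖ ≤ 1 / 4 * ‖w‖ :=
    (ContinuousLinearMap.le_opNorm _ _).trans (mul_le_mul_of_nonneg_right hc (norm_nonneg _))
  have n3 : (U z - U s) w = U z w - U s w := rfl
  rw [n3] at n2
  have n4 := norm_sub_norm_le (U z w) (U s w)
  have n5 := norm_sub_norm_le (U s w) (U z w)
  rw [norm_sub_rev] at n5
  exact ⟨n1, by linarith, by linarith⟩

end basic

theorem rd (hJV : StmtJV) (hJM : StmtJM) : StmtRD := by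
  intro K u M hM D S U h8 lam ε hlam hε
  have : CompactSpace M := isCompact_iff_compactSpace.1 hM
  have hJ1 : StmtJ1 := Pool.Agent.Helper55.RZ.j1
  have hJ2 : StmtJ2 := Pool.Agent.Helper55.RZ.j2
  have hJ3 : StmtJ3 := j3 hJ2
  have hsub : Sub D U := sub_of h8.pair
  have hcφ : Continuous (fun z : M => Real.log (Jac (D.A z) (U z))) :=
    hJ3 M K D.A U D.contA hsub.cont hsub.PP
      (fun x v h1 h2 => Pool.Agent.Helper50.RZ.inj1 D U hsub x v h1 h2)
  obtain ⟨φ, hφ⟩ : ∃ φ : M → ℝ, φ = fun z : M => Real.log (Jac (D.A z) (U z)) := ⟨_, rfl⟩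
  rw [← hφ] at hcφ
  obtain ⟨δ1, hδ1, hu1⟩ := Metric.uniformContinuous_iff.1
    (CompactSpace.uniformContinuous_of_continuous hcφ) ε hε
  obtain ⟨δ2, hδ2, hu2⟩ := Metric.uniformContinuous_iff.1
    (CompactSpace.uniformContinuous_of_continuous hsub.cont) (1 / 4) (by norm_num)
  obtain ⟨R0, hR0⟩ := isCompact_univ.exists_bound_of_continuousOn
    (f := U) hsub.cont.continuousOn
  obtain ⟨R, hR1, hR⟩ : ∃ R : ℝ, 1 ≤ R ∧ ∀ z, ‖U z‖ ≤ R :=
    ⟨max 1 R0, le_max_left _ _, fun z => (hR0 z (mem_univ _)).trans (le_max_right _ _)⟩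
  have hdist : ∀ (z z' : M) (δ : ℝ), ‖(z : E K) - z'‖ ≤ min δ1 δ2 / 2 →
      dist z z' < δ1 ∧ dist z z' < δ2 := by
    intro z z' _ hz
    have e : dist z z' = ‖(z : E K) - z'‖ := by rw [Subtype.dist_eq, dist_eq_norm]
    have m1 := min_le_left δ1 δ2
    have m2 := min_le_right δ1 δ2
    have m3 : 0 < min δ1 δ2 := lt_min hδ1 hδ2
    rw [e]
    constructor <;> linarith
  -- the norm of the identity
  have hone : gv (1 : End u) = 1 := by
    rw [(hJM K K u 0 0 0 le_rfl).2 1]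
    simp [ContinuousLinearMap.det]
  have hnn : ∀ {K' : ℕ} (Y : E u →L[ℝ] E K'), 0 ≤ gv Y := fun Y => Real.sqrt_nonneg _
  refine ⟨min δ1 δ2 / 2, max 1 ((8 * R / lam ^ 2) ^ u), by
    have := lt_min hδ1 hδ2
    linarith, le_max_left _ _, ?_⟩
  intro q x y xs L L' hxy hxs hys hrx hry hTL hTL' hL hL'
  -- facts at one point
  have key : ∀ (x : M) (L : E u →L[ℝ] E K), ‖(D.f^[q] x : E K) - xs‖ ≤ min δ1 δ2 / 2 →
      Module.finrank ℝ (LinearMap.range (U x : E K →ₗ[ℝ] E K)) = u → D.T x ∘L L = L →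
      (∀ v, lam * ‖v‖ ≤ ‖L v‖ ∧ ‖L v‖ ≤ lam⁻¹ * ‖v‖ ∧ ‖S x (L v)‖ ≤ ‖U x (L v)‖) →
      (gv (U xs ∘L D.An q x ∘L L) ≤
          2 ^ u * (Real.exp (∑ k ∈ Finset.range q, φ (D.f^[k] x)) * (R / lam) ^ u)) ∧
      (Real.exp (∑ k ∈ Finset.range q, φ (D.f^[k] x)) ≤
          (2 / lam) ^ u * (2 ^ u * gv (U xs ∘L D.An q x ∘L L))) := by
    intro x L hx hr hTL hL
    have hTv : ∀ v, D.T x (L v) = L v := fun v =>
      congrArg (fun F : E u →L[ℝ] E K => F v) hTL
    have hcone : ∀ v, ‖S (D.f^[q] x) (D.An q x (L v))‖ ≤ ‖U (D.f^[q] x) (D.An q x (L v))‖ :=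
      fun v => cone h8 q x (L v) (hTv v) (hL v).2.2
    have hTq : ∀ v, D.T (D.f^[q] x) (D.An q x (L v)) = D.An q x (L v) := fun v =>
      congrArg (fun F : End K => F (L v)) (Pool.Agent.Helper64.RZ.T_An D q x)
    have hcl : ‖U (D.f^[q] x) - U xs‖ ≤ 1 / 4 := by
      have := hu2 (hdist _ _ 0 hx).2
      rw [dist_eq_norm] at this
      exact this.le
    have hcmp := fun v => comp2 h8.pair (D.f^[q] x) xs (D.An q x (L v)) (hTq v) (hcone v) hcl
    have hcmp0 := fun v => comp2 h8.pair x x (L v) (hTv v) (hL v).2.2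
      (by rw [sub_self, norm_zero]; norm_num)
    obtain ⟨Y, hY⟩ : ∃ Y : E u →L[ℝ] E K, Y = U (D.f^[q] x) ∘L (D.An q x ∘L L) := ⟨_, rfl⟩
    obtain ⟨W, hW⟩ : ∃ W : E u →L[ℝ] E K, W = U xs ∘L (D.An q x ∘L L) := ⟨_, rfl⟩
    obtain ⟨Z, hZ⟩ : ∃ Z : E u →L[ℝ] E K, Z = U x ∘L L := ⟨_, rfl⟩
    have g1 : gv W ≤ 2 ^ u * gv Y := (hJM K K u W Y 2 (by norm_num)).1 (fun v => by
      rw [hW, hY]; exact (hcmp v).2.1)
    have g2 : gv Y ≤ 2 ^ u * gv W := (hJM K K u Y W 2 (by norm_num)).1 (fun v => by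
      rw [hW, hY]; exact (hcmp v).2.2)
    have g3 : gv Y = Jac (D.An q x) (U x) * gv Z := by
      have e : Y = D.An q x ∘L Z := by
        rw [hY, hZ]
        ext1 v
        exact (congrArg (fun F : End K => F (L v))
          (Pool.Agent.Helper50.RZ.An_comm D U hsub q x)).symm
      rw [e]
      refine hJV K u Z (D.An q x) (U x) (hsub.PP x) ?_ ?_ hr
      · rw [hZ]
        ext1 v
        exact congrArg (fun F : End K => F (L v)) (hsub.PP x)
      · intro v hv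
        have hv' : U x (L v) = 0 := by rw [hZ] at hv; exact hv
        have a := (hcmp0 v).1
        rw [hv', norm_zero, mul_zero] at a
        have b := (hL v).1
        have c : ‖v‖ = 0 := by
          have : 0 ≤ ‖v‖ := norm_nonneg v
          nlinarith
        exact norm_eq_zero.1 c
    have g4 : Jac (D.An q x) (U x) = Real.exp (∑ k ∈ Finset.range q, φ (D.f^[k] x)) := by
      have a := Pool.Agent.Helper50.RZ.Jac_An hJ1 hJ2 D U hsub q x
      have b : 0 < Jac (D.An q x) (U x) := (hJ2 K _ _ (hsub.PP _)).2.1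
        (fun v hv => Pool.Agent.Helper50.RZ.An_inj D U hsub q x v hv)
      rw [hφ, ← a, Real.exp_log b]
    have g5 : gv Z ≤ (R / lam) ^ u * gv (1 : End u) :=
      (hJM K u u Z 1 (R / lam) (by positivity)).1 (fun v => by
        rw [hZ]
        change ‖U x (L v)‖ ≤ R / lam * ‖v‖
        calc ‖U x (L v)‖ ≤ ‖U x‖ * ‖L v‖ := ContinuousLinearMap.le_opNorm _ _
          _ ≤ R * (lam⁻¹ * ‖v‖) := mul_le_mul (hR x) (hL v).2.1 (norm_nonneg _) (by linarith)
          _ = R / lam * ‖v‖ := by rw [div_eq_mul_inv]; ring)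
    have g6 : gv (1 : End u) ≤ (2 / lam) ^ u * gv Z :=
      (hJM u K u 1 Z (2 / lam) (by positivity)).1 (fun v => by
        rw [hZ]
        change ‖v‖ ≤ 2 / lam * ‖U x (L v)‖
        have a := (hcmp0 v).1
        have b := (hL v).1
        rw [div_mul_eq_mul_div, le_div_iff₀ hlam]
        linarith)
    rw [hone] at g5 g6
    rw [mul_one] at g5
    have pe := Real.exp_pos (∑ k ∈ Finset.range q, φ (D.f^[k] x))
    rw [← hW]
    rw [g4] at g3
    refine ⟨?_, ?_⟩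
    · calc gv W ≤ 2 ^ u * gv Y := g1
        _ ≤ _ := by
          rw [g3]
          exact mul_le_mul_of_nonneg_left (mul_le_mul_of_nonneg_left g5 pe.le) (by positivity)
    · calc Real.exp (∑ k ∈ Finset.range q, φ (D.f^[k] x))
          = Real.exp (∑ k ∈ Finset.range q, φ (D.f^[k] x)) * 1 := (mul_one _).symm
        _ ≤ Real.exp (∑ k ∈ Finset.range q, φ (D.f^[k] x)) * ((2 / lam) ^ u * gv Z) :=
            mul_le_mul_of_nonneg_left g6 pe.le
        _ = (2 / lam) ^ u * gv Y := by rw [g3]; ring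
        _ ≤ (2 / lam) ^ u * (2 ^ u * gv W) := mul_le_mul_of_nonneg_left g2 (by positivity)
  obtain ⟨kx, -⟩ := key x L hxs hrx hTL hL
  obtain ⟨-, ky⟩ := key y L' hys hry hTL' hL'
  obtain ⟨a, ha⟩ : ∃ a : ℝ, a = ∑ k ∈ Finset.range q, φ (D.f^[k] x) := ⟨_, rfl⟩
  obtain ⟨b, hb⟩ : ∃ b : ℝ, b = ∑ k ∈ Finset.range q, φ (D.f^[k] y) := ⟨_, rfl⟩
  obtain ⟨G, hG⟩ : ∃ G : ℝ, G = gv (U xs ∘L D.An q y ∘L L') := ⟨_, rfl⟩
  rw [← ha] at kx
  rw [← hb, ← hG] at ky
  rw [← hG]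
  have hG0 : 0 ≤ G := by rw [hG]; exact hnn _
  have hab : a ≤ b + ε * q := by
    have h1 : a ≤ ∑ k ∈ Finset.range q, (φ (D.f^[k] y) + ε) := by
      rw [ha]
      refine Finset.sum_le_sum fun k hk => ?_
      have h2 := hu1 (hdist _ _ 0 (hxy k (Finset.mem_range.1 hk).le)).1
      rw [Real.dist_eq] at h2
      have := (abs_lt.1 h2).2
      linarith
    rw [Finset.sum_add_distrib, ← hb, Finset.sum_const, Finset.card_range, nsmul_eq_mul] at h1
    linarith
  have hGp : 0 < G := by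
    rcases hG0.lt_or_eq with h | h
    · exact h
    · exfalso
      rw [← h, mul_zero, mul_zero] at ky
      exact absurd (Real.exp_pos b) (not_lt.2 ky)
  refine ⟨hGp, ?_⟩
  have e1 : Real.exp a ≤ Real.exp b * Real.exp (ε * q) := by
    rw [← Real.exp_add]
    exact Real.exp_le_exp.2 hab
  have pq := Real.exp_pos (ε * q)
  calc gv (U xs ∘L D.An q x ∘L L) ≤ 2 ^ u * (Real.exp a * (R / lam) ^ u) := kx
    _ ≤ 2 ^ u * ((Real.exp b * Real.exp (ε * q)) * (R / lam) ^ u) := by gcongr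
    _ ≤ 2 ^ u * ((((2 / lam) ^ u * (2 ^ u * G)) * Real.exp (ε * q)) * (R / lam) ^ u) := by
        gcongr
    _ = (2 * (2 / lam) * 2 * (R / lam)) ^ u * Real.exp (ε * q) * G := by
        rw [mul_pow, mul_pow, mul_pow]; ring
    _ = (8 * R / lam ^ 2) ^ u * Real.exp (ε * q) * G := by
        have e : 2 * (2 / lam) * 2 * (R / lam) = 8 * R / lam ^ 2 := by
          field_simp
          ring
        rw [e]
    _ ≤ max 1 ((8 * R / lam ^ 2) ^ u) * Real.exp (ε * q) * G := by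
        gcongr
        exact le_max_right _ _

end Pool.Agent.Helper27.RZ
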